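import Mathlib
import Pool.Agent.E8helper61.SI.Asymp
import Pool.Agent.E8helper82.SI.Coup
import Pool.Agent.E8helper9.SI.C1
import Pool.Agent.E8helper7.SI.C2
import Pool.Agent.E8helper99.SI.Vtx
import Pool.Agent.E8helper87.SI.Sym
import Pool.Agent.E8helper71.SI.Num3
import Pool.Agent.E8helper89.SI.Zasm

set_option autoImplicit false

namespace Pool.Agent.Results.MP_64e56f_co.AsympSharpH61

/-- Any two distinct members `G ≠ H` of the family have a symmetric difference with an independent
set of exactly `r` vertices (independence number at least `r`). -/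
def Admissible (r n : ℕ) (F : Finset (SimpleGraph (Fin n))) : Prop :=
  ∀ G ∈ F, ∀ H ∈ F, G ≠ H → ∃ s : Finset (Fin n), (symmDiff G H).IsNIndepSet r s

theorem result :
    ∀ ε : ℝ, 0 < ε → ∃ r₀ : ℕ, ∀ r n : ℕ, r₀ ≤ r → r ≤ n →
      ∀ F : Finset (SimpleGraph (Fin n)), Admissible r n F →
        (F.card : ℝ) ≤ (1 + ε) * 2 ^ (n.choose 2 - r.choose 2) :=
  Pool.Agent.E8helper61.SI.asymp Pool.Agent.E8helper82.SI.coup
    (Pool.Agent.E8helper89.SI.zasm Pool.Agent.E8helper9.SI.c1 Pool.Agent.E8helper7.SI.c2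
      Pool.Agent.E8helper99.SI.vtx Pool.Agent.E8helper99.SI.deg Pool.Agent.E8helper87.SI.sym
      Pool.Agent.E8helper71.SI.num3)

end Pool.Agent.Results.MP_64e56f_co.AsympSharpH61
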