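import Mathlib
import Pool.Agent.E8helper61.SI.Final2

set_option autoImplicit false

namespace Pool.Agent.Results.MP_64e56f_co.ExactRangeH61

/-- Any two distinct members `G ≠ H` of the family have a symmetric difference with an independent
set of exactly `r` vertices (independence number at least `r`). -/
def Admissible (r n : ℕ) (F : Finset (SimpleGraph (Fin n))) : Prop :=
  ∀ G ∈ F, ∀ H ∈ F, G ≠ H → ∃ s : Finset (Fin n), (symmDiff G H).IsNIndepSet r s

/-- `A_r(n) = 2^(C(n,2) - C(r,2))`: every admissible family has at most that many members, and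
some admissible family has exactly that many. -/
def ExactValue (r n : ℕ) : Prop :=
  (∀ F : Finset (SimpleGraph (Fin n)), Admissible r n F →
      F.card ≤ 2 ^ (n.choose 2 - r.choose 2)) ∧
    ∃ F : Finset (SimpleGraph (Fin n)), Admissible r n F ∧
      F.card = 2 ^ (n.choose 2 - r.choose 2)

theorem result :
    (∀ ε : ℝ, 0 < ε → ∃ r₀ : ℕ, ∀ r n : ℕ, r₀ ≤ r → r ≤ n →
      (n : ℝ) ≤ (2 : ℝ) ^ ((1 / 2 - ε) * r) → ExactValue r n) ∧
    (∀ r n : ℕ, 4 ≤ r → r ≤ n → n ^ 8 ≤ 2 ^ r → ExactValue r n) ∧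
    (∀ r n : ℕ, 11 ≤ r → r ≤ n → 5 * (n - r) ≤ r → ExactValue r n) ∧
    (∀ r n : ℕ, r ≤ n →
      (r + 1) * (n - r) * (∑ i ∈ Finset.range (n - r + 1), r.choose i) ≤ 2 ^ r →
      ExactValue r n) :=
  ⟨Pool.Agent.E8helper61.SI.exact_half, Pool.Agent.E8helper61.SI.exact_exp,
    Pool.Agent.E8helper61.SI.exact_lin, Pool.Agent.E8helper61.SI.exact_crit⟩

end Pool.Agent.Results.MP_64e56f_co.ExactRangeH61
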